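import Pool.Agent.Y920.ETC.Stm

set_option autoImplicit false

/-! Project ET, job ET-WB: the valuation ring of a pair of rigid elements without exceptions. -/

namespace Pool.Agent.Y447.ET

open Pool.Agent.Y920.ETC

section

variable {F : Type} [Field F] {T H : Subgroup Fˣ}

/-- units of `O` or elements of the maximal ideal -/
def Ou (T H : Subgroup Fˣ) (x : Fˣ) : Prop :=
  Sm T H x ∨ (x ∈ H ∧ ∀ a : Fˣ, Sm T H a → Sm T H (x * a))

theorem sm_or (h : RigidPair T H) {x : Fˣ} (hx : x ∉ H) : Sm T H x ∨ Sm T H x⁻¹ := by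
  rcases h.rigid x hx with ⟨t, ht, h1⟩ | ⟨t, ht, h1⟩
  · exact Or.inl ⟨hx, t, ht, h1⟩
  · refine Or.inr ⟨fun h2 => hx (by simpa using H.inv_mem h2), t, ht, ?_⟩
    have hx0 : (x : F) ≠ 0 := x.ne_zero
    rw [Units.val_mul] at h1
    rw [Units.val_inv_eq_inv_val]
    field_simp
    linear_combination h1

theorem not_both (h : RigidPair T H) {x : Fˣ} (h1 : Sm T H x) (h2 : Sm T H x⁻¹) : False := by
  obtain ⟨hx, t, ht, e1⟩ := h1
  obtain ⟨-, s, hs, e2⟩ := h2
  apply hx
  have hx0 : (x : F) ≠ 0 := x.ne_zero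
  have e3 : t = x * s := by
    apply Units.ext
    rw [Units.val_mul, e1, e2, Units.val_inv_eq_inv_val]
    field_simp
    ring
  have e4 : x = t * s⁻¹ := by rw [e3]; group
  rw [e4]
  exact h.le (T.mul_mem ht (T.inv_mem hs))

theorem sm_of_not (h : RigidPair T H) {x : Fˣ} (hx : x ∉ H) (h1 : ¬ Sm T H x) : Sm T H x⁻¹ :=
  (sm_or h hx).resolve_left h1

theorem mul_notMem {x y : Fˣ} (hx : x ∈ H) (hy : y ∉ H) : x * y ∉ H := fun h =>
  hy ((Subgroup.mul_mem_cancel_left H hx).1 h)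

theorem mul_notMem' {x y : Fˣ} (hx : x ∉ H) (hy : y ∈ H) : x * y ∉ H := fun h =>
  hx ((Subgroup.mul_mem_cancel_right H hy).1 h)

theorem inv_notMem {x : Fˣ} (hx : x ∉ H) : x⁻¹ ∉ H := fun h => hx (by simpa using H.inv_mem h)

/-- LEMMA 1 -/
theorem sm_mul (h : RigidPair T H) {x y : Fˣ} (hx : Sm T H x) (hy : Sm T H y)
    (hxy : x * y ∉ H) : Sm T H (x * y) := by
  obtain ⟨hxH, t1, ht1, e1⟩ := hx
  obtain ⟨hyH, t2, ht2, e2⟩ := hy
  -- s = 1 + x + x y
  have h1 : ∃ s ∈ T, (s : F) = 1 + x + x * y := by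
    have hs1 := h.rigid (x * t2) (mul_notMem' hxH (h.le ht2))
    have hs2 := h.rigid (t1⁻¹ * (x * y)) (mul_notMem (H.inv_mem (h.le ht1)) hxy)
    have ht10 : (t1 : F) ≠ 0 := t1.ne_zero
    rcases hs1 with ⟨s, hs, e⟩ | ⟨s, hs, e⟩
    · refine ⟨s, hs, ?_⟩
      rw [e, Units.val_mul, e2]
      ring
    · rcases hs2 with ⟨r, hr, e'⟩ | ⟨r, hr, e'⟩
      · refine ⟨t1 * r, T.mul_mem ht1 hr, ?_⟩
        rw [Units.val_mul, e', Units.val_mul, Units.val_inv_eq_inv_val, Units.val_mul]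
        field_simp
        rw [e1]
      · exfalso
        apply hyH
        have e3 : x * t2 * s = x * y * r := by
          apply Units.ext
          have e4 : ((x * t2 * s : Fˣ) : F) = 1 + x + x * y := by
            rw [e, Units.val_mul, e2]
            ring
          have e5 : ((x * y * r : Fˣ) : F) = 1 + x + x * y := by
            have : ((x * y * r : Fˣ) : F) = t1 * ((t1⁻¹ * (x * y) * r : Fˣ) : F) := by
              simp only [Units.val_mul, Units.val_inv_eq_inv_val]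
              field_simp
            rw [this, e']
            simp only [Units.val_mul, Units.val_inv_eq_inv_val]
            field_simp
            rw [e1]
          rw [e4, e5]
        have e6 : y = t2 * s * r⁻¹ := by
          have : x * (t2 * s) = x * (y * r) := by rw [← mul_assoc, e3, mul_assoc]
          rw [mul_left_cancel this]
          group
        rw [e6]
        exact h.le (T.mul_mem (T.mul_mem ht2 hs) (T.inv_mem hr))
  obtain ⟨s, hs, es⟩ := h1
  rcases h.rigid (x * y) hxy with h2 | ⟨t, ht, e⟩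
  · exact ⟨hxy, h2⟩
  exfalso
  have e7 : (s : F) = x * (1 + (y * t : Fˣ)) := by
    rw [es]
    simp only [Units.val_mul] at e ⊢
    linear_combination -e
  rcases h.rigid (y * t) (mul_notMem' hyH (h.le ht)) with ⟨t', ht', e'⟩ | ⟨t', ht', e'⟩
  · apply hxH
    have e8 : s = x * t' := by
      apply Units.ext
      rw [e7, ← e', Units.val_mul]
    have e9 : x = s * t'⁻¹ := by rw [e8]; group
    rw [e9]
    exact h.le (T.mul_mem hs (T.inv_mem ht'))
  · apply hxy
    have e8 : s = x * (y * t * t') := by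
      apply Units.ext
      rw [e7, ← e', ← Units.val_mul]
    have e9 : x * y = s * t'⁻¹ * t⁻¹ := by rw [e8]; group
    rw [e9]
    exact h.le (T.mul_mem (T.mul_mem hs (T.inv_mem ht')) (T.inv_mem ht))

theorem ou_mul (h : RigidPair T H) (hP : PCD T H) {x y : Fˣ} (hx : Ou T H x) (hy : Ou T H y) :
    Ou T H (x * y) := by
  rcases hx with hx | ⟨hxH, hx⟩
  · rcases hy with hy | ⟨hyH, hy⟩
    · by_cases hxy : x * y ∈ H
      · exact Or.inr ⟨hxy, fun a ha => hP.P x y a hx hy hxy ha⟩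
      · exact Or.inl (sm_mul h hx hy hxy)
    · left
      rw [mul_comm]
      exact hy x hx
  · rcases hy with hy | ⟨hyH, hy⟩
    · exact Or.inl (hx y hy)
    · refine Or.inr ⟨H.mul_mem hxH hyH, fun a ha => ?_⟩
      rw [mul_assoc]
      exact hx _ (hy a ha)

theorem ou_or_inv (h : RigidPair T H) (hP : PCD T H) (x : Fˣ) : Ou T H x ∨ Ou T H x⁻¹ := by
  by_cases hx : x ∈ H
  swap
  · exact (sm_or h hx).imp Or.inl Or.inl
  by_contra hc
  rw [not_or] at hc
  obtain ⟨c1, c2⟩ := hc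
  have c1' : ∃ a, Sm T H a ∧ ¬ Sm T H (x * a) := by
    by_contra h1
    push Not at h1
    exact c1 (Or.inr ⟨hx, h1⟩)
  have c2' : ∃ b, Sm T H b ∧ ¬ Sm T H (x⁻¹ * b) := by
    by_contra h1
    push Not at h1
    exact c2 (Or.inr ⟨H.inv_mem hx, h1⟩)
  obtain ⟨a, ha, ha'⟩ := c1'
  obtain ⟨b, hb, hb'⟩ := c2'
  have h1 := sm_of_not h (mul_notMem hx ha.1) ha'
  have h2 := sm_of_not h (mul_notMem (H.inv_mem hx) hb.1) hb'
  have e1 : (x * a)⁻¹ * (x⁻¹ * b)⁻¹ = (a * b)⁻¹ := by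
    rw [mul_inv, mul_inv, mul_inv, inv_inv]
    calc x⁻¹ * a⁻¹ * (x * b⁻¹) = (x⁻¹ * x) * (a⁻¹ * b⁻¹) := by ac_rfl
      _ = a⁻¹ * b⁻¹ := by rw [inv_mul_cancel, one_mul]
  by_cases hab : a * b ∈ H
  · have h3 := hP.P _ _ a h1 h2 (by rw [e1]; exact H.inv_mem hab) ha
    rw [e1] at h3
    have e2 : (a * b)⁻¹ * a = b⁻¹ := by
      rw [mul_inv]
      calc a⁻¹ * b⁻¹ * a = (a⁻¹ * a) * b⁻¹ := by ac_rfl
        _ = b⁻¹ := by rw [inv_mul_cancel, one_mul]
    rw [e2] at h3
    exact not_both h hb h3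
  · have h3 := sm_mul h ha hb hab
    have h4 := sm_mul h h1 h2 (by rw [e1]; exact inv_notMem hab)
    rw [e1] at h4
    exact not_both h h3 h4

theorem sm_neg (h : RigidPair T H) (hP : PCD T H) {y : Fˣ} (hy : Sm T H y) : Sm T H (-1 * y) := by
  by_contra hc
  have h1 := sm_of_not h (mul_notMem h.neg hy.1) hc
  have e1 : y * (-1 * y)⁻¹ = -1 := by
    rw [mul_inv, mul_comm (-1 : Fˣ)⁻¹, ← mul_assoc, mul_inv_cancel, one_mul]
    simp
  have h2 := hP.P y (-1 * y)⁻¹ y hy h1 (by rw [e1]; exact h.neg) hy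
  rw [e1] at h2
  exact hc h2

/-- `1 + y` for small `y` -/
theorem one_add (h : RigidPair T H) (hP : PCD T H) {y t : Fˣ} (hy : Sm T H y)
    (et : (t : F) = 1 + y) : t ∈ T ∧ (∀ a, Sm T H a → Sm T H (t * a)) ∧
      ∀ a, Sm T H a → Sm T H (t⁻¹ * a) := by
  have ht : t ∈ T := by
    obtain ⟨-, s, hs, es⟩ := hy
    have : t = s := Units.ext (by rw [et, es])
    rw [this]
    exact hs
  refine ⟨ht, fun a ha => ?_, fun a ha => ?_⟩
  · rw [mul_comm]
    exact hP.C a y t ha hy et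
  · by_contra hc
    have h1 := sm_of_not h (mul_notMem (H.inv_mem (h.le ht)) ha.1) hc
    refine hP.D y a _ hy ha h1 ?_
    rw [← et, ← Units.val_mul]
    congr 1
    rw [mul_inv, inv_inv, mul_comm t, ← mul_assoc, mul_inv_cancel, one_mul]

theorem ou_one_add (h : RigidPair T H) (hP : PCD T H) {x w : Fˣ} (hx : Ou T H x)
    (ew : (w : F) = 1 + x) : Ou T H w := by
  rcases hx with hx | ⟨hxH, hx⟩
  · obtain ⟨h1, h2, -⟩ := one_add h hP hx ew
    exact Or.inr ⟨h.le h1, h2⟩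
  by_cases hw : w ∈ H
  · refine Or.inr ⟨hw, fun a ha => ?_⟩
    by_contra hc
    have hb := sm_of_not h (mul_notMem hw ha.1) hc
    have ha' := hx a ha
    obtain ⟨haH, ta, hta, eta⟩ := ha
    obtain ⟨-, g2, g3⟩ := one_add h hP ⟨haH, ta, hta, eta⟩ eta
    obtain ⟨-, s, hs, es⟩ := g3 _ ha'
    obtain ⟨hbH, r, hr, er⟩ := hb
    apply hbH
    have hta0 : (ta : F) ≠ 0 := ta.ne_zero
    have hw0 : (w : F) ≠ 0 := w.ne_zero
    have ha0 : (a : F) ≠ 0 := a.ne_zero
    have e1 : ta * s = (w * a) * r := by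
      apply Units.ext
      simp only [Units.val_mul, Units.val_inv_eq_inv_val] at es er ⊢
      rw [es, er]
      field_simp
      rw [eta, ew]
      ring
    have e2 : (w * a)⁻¹ = r * (ta * s)⁻¹ := by
      rw [e1, mul_inv (w * a) r, mul_comm _ r⁻¹, ← mul_assoc, mul_inv_cancel, one_mul]
    rw [e2]
    exact h.le (T.mul_mem hr (T.inv_mem (T.mul_mem hta hs)))
  · by_contra hc
    have hm := sm_of_not h hw (fun h1 => hc (Or.inl h1))
    obtain ⟨-, t, ht, et⟩ := sm_neg h hP hm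
    have h1 := hx _ hm
    apply h1.1
    have hw0 : (w : F) ≠ 0 := w.ne_zero
    have e1 : x * w⁻¹ = t := by
      apply Units.ext
      simp only [Units.val_mul, Units.val_inv_eq_inv_val, Units.val_neg, Units.val_one] at et ⊢
      rw [et]
      field_simp
      rw [ew]
      ring
    rw [e1]
    exact h.le ht

/-- the valuation ring -/
theorem ou_one : Ou T H 1 :=
  Or.inr ⟨H.one_mem, fun a ha => by rwa [one_mul]⟩

theorem ou_neg (h : RigidPair T H) (hP : PCD T H) : Ou T H (-1) :=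
  Or.inr ⟨h.neg, fun _ ha => sm_neg h hP ha⟩

/-- membership in the valuation ring -/
def MemO (T H : Subgroup Fˣ) (f : F) : Prop := f = 0 ∨ ∃ u : Fˣ, (u : F) = f ∧ Ou T H u

theorem memO_unit (u : Fˣ) : MemO T H (u : F) ↔ Ou T H u := by
  constructor
  · rintro (h0 | ⟨v, hv, h1⟩)
    · exact absurd h0 u.ne_zero
    · rwa [← Units.ext hv]
  · intro h1
    exact Or.inr ⟨u, rfl, h1⟩

theorem memO_mul (h : RigidPair T H) (hP : PCD T H) {a b : F} (ha : MemO T H a)
    (hb : MemO T H b) : MemO T H (a * b) := by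
  rcases ha with rfl | ⟨u, rfl, hu⟩
  · left
    rw [zero_mul]
  · rcases hb with rfl | ⟨v, rfl, hv⟩
    · left
      rw [mul_zero]
    · rw [← Units.val_mul]
      exact Or.inr ⟨u * v, rfl, ou_mul h hP hu hv⟩

theorem memO_add (h : RigidPair T H) (hP : PCD T H) {a b : F} (ha : MemO T H a)
    (hb : MemO T H b) : MemO T H (a + b) := by
  rcases ha with rfl | ⟨u, rfl, hu⟩
  · rwa [zero_add]
  rcases hb with rfl | ⟨v, rfl, hv⟩
  · rw [add_zero]
    exact Or.inr ⟨u, rfl, hu⟩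
  have key : ∀ u v : Fˣ, Ou T H u → Ou T H (v * u⁻¹) → MemO T H ((u : F) + v) := by
    intro u v hu h1
    have hu0 : (u : F) ≠ 0 := u.ne_zero
    by_cases h0 : (u : F) + v = 0
    · exact Or.inl h0
    have h2 : (1 : F) + (v * u⁻¹ : Fˣ) ≠ 0 := by
      intro h3
      apply h0
      rw [Units.val_mul, Units.val_inv_eq_inv_val] at h3
      field_simp at h3
      linear_combination h3
    have h3 := ou_one_add h hP (w := Units.mk0 _ h2) h1 rfl
    refine Or.inr ⟨u * Units.mk0 _ h2, ?_, ou_mul h hP hu h3⟩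
    rw [Units.val_mul, Units.val_mk0, Units.val_mul, Units.val_inv_eq_inv_val]
    field_simp
  rcases ou_or_inv h hP (v * u⁻¹) with h1 | h1
  · exact key u v hu h1
  · rw [add_comm]
    refine key v u hv ?_
    have : (v * u⁻¹)⁻¹ = u * v⁻¹ := by rw [mul_inv, inv_inv, mul_comm]
    rwa [this] at h1

/-- JOB ET-WB -/
theorem t_WB : S_WB := by
  intro F _ T H h hP
  refine ⟨{ carrier := {f | MemO T H f}
            mul_mem' := fun ha hb => memO_mul h hP ha hb
            one_mem' := Or.inr ⟨1, Units.val_one, ou_one⟩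
            add_mem' := fun ha hb => memO_add h hP ha hb
            zero_mem' := Or.inl rfl
            neg_mem' := ?_
            mem_or_inv_mem' := ?_ }, ?_, ?_⟩
  · intro x hx
    have h1 : MemO T H (((-1 : Fˣ) : F) * x) :=
      memO_mul h hP ((memO_unit (-1)).2 (ou_neg h hP)) hx
    have h2 : ((-1 : Fˣ) : F) * x = -x := by simp
    rwa [h2] at h1
  · intro x
    by_cases hx : x = 0
    · left
      exact Or.inl hx
    · have := ou_or_inv h hP (Units.mk0 x hx)
      rcases this with h1 | h1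
      · left
        exact Or.inr ⟨_, rfl, h1⟩
      · right
        exact Or.inr ⟨_, by simp, h1⟩
  · intro u hu hu'
    have h1 : Ou T H u := (memO_unit u).1 hu
    have h2 : Ou T H u⁻¹ := (memO_unit u⁻¹).1 hu'
    by_contra hc
    rcases h1 with h1 | h1
    · rcases h2 with h2 | h2
      · exact not_both h h1 h2
      · exact inv_notMem hc h2.1
    · exact hc h1.1
  · intro x hx hx'
    rcases (hx : MemO T H x) with rfl | ⟨u, rfl, hu⟩
    · exact absurd (Or.inl inv_zero : MemO T H (0 : F)⁻¹) hx'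
    have hu' : ¬ Ou T H u⁻¹ := by
      intro h1
      apply hx'
      show MemO T H ((u : F))⁻¹
      rw [← Units.val_inv_eq_inv_val]
      exact (memO_unit u⁻¹).2 h1
    rcases hu with hu | ⟨huH, hu⟩
    · exact hu.2
    have c2' : ∃ b, Sm T H b ∧ ¬ Sm T H (u⁻¹ * b) := by
      by_contra h1
      push Not at h1
      exact hu' (Or.inr ⟨H.inv_mem huH, h1⟩)
    obtain ⟨a, ha, ha'⟩ := c2'
    have hb := sm_of_not h (mul_notMem (H.inv_mem huH) ha.1) ha'
    obtain ⟨b, hbdef⟩ : ∃ b : Fˣ, b = (u⁻¹ * a)⁻¹ := ⟨_, rfl⟩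
    rw [← hbdef] at hb
    have eu : u = a * b := by
      rw [hbdef, mul_inv, inv_inv, mul_comm u, ← mul_assoc, mul_inv_cancel, one_mul]
    obtain ⟨t2, et2⟩ : ∃ t2 : Fˣ, (t2 : F) = 1 + b := by
      obtain ⟨-, t, -, e⟩ := hb
      exact ⟨t, e⟩
    have hna := sm_neg h hP ha
    obtain ⟨t1, et1⟩ : ∃ t1 : Fˣ, (t1 : F) = 1 + ((-1 * a : Fˣ) : F) := by
      obtain ⟨-, t, -, e⟩ := hna
      exact ⟨t, e⟩
    obtain ⟨g1, -, g3⟩ := one_add h hP hna et1
    obtain ⟨-, k2, -⟩ := one_add h hP hb et2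
    obtain ⟨-, s, hs, es⟩ := g3 _ (k2 _ ha)
    refine ⟨t1 * s, T.mul_mem g1 hs, ?_⟩
    have ht10 : (t1 : F) ≠ 0 := t1.ne_zero
    rw [eu]
    simp only [Units.val_mul, Units.val_inv_eq_inv_val, Units.val_neg, Units.val_one] at es et1 ⊢
    rw [es]
    field_simp
    rw [et1, et2]
    ring

end

end Pool.Agent.Y447.ET
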